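import Pool.Agent.H92.KST.Targets

/-!
# Board kst_modules: row DEC (decomposition into coprime pairs)
-/

set_option autoImplicit false
set_option linter.dupNamespace false

universe u

namespace Pool.Agent.H86.KST

open Pool.Agent.H92.KST

section api

variable {R F : Type u} [CommRing R] [IsDomain R] [Field F] [Algebra R F] [IsFractionRing R F]

theorem alg_ne {r : R} (hr : r ≠ 0) : algebraMap R F r ≠ 0 := by
  rw [Ne, FaithfulSMul.algebraMap_eq_zero_iff]
  exact hr

theorem inl_alg {T : Set (Ideal R)} (hT : ∀ q ∈ T, q.IsPrime) (r : R) :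
    InL T (algebraMap R F r) :=
  ⟨1, r, one_ne_zero, fun q hq h => (hT q hq).ne_top ((Ideal.eq_top_iff_one _).2 h), by
    rw [map_one, one_mul]⟩

theorem inl_mul {T : Set (Ideal R)} (hT : ∀ q ∈ T, q.IsPrime) {a b : F} (ha : InL T a)
    (hb : InL T b) : InL T (a * b) := by
  obtain ⟨s, r, hs0, hs, h⟩ := ha
  obtain ⟨s', r', hs0', hs', h'⟩ := hb
  refine ⟨s * s', r * r', mul_ne_zero hs0 hs0', fun q hq hm => ?_, ?_⟩
  · rcases (hT q hq).mem_or_mem hm with h1 | h1
    · exact hs q hq h1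
    · exact hs' q hq h1
  · rw [map_mul, map_mul, ← h, ← h']
    ring

theorem inl_add {T : Set (Ideal R)} (hT : ∀ q ∈ T, q.IsPrime) {a b : F} (ha : InL T a)
    (hb : InL T b) : InL T (a + b) := by
  obtain ⟨s, r, hs0, hs, h⟩ := ha
  obtain ⟨s', r', hs0', hs', h'⟩ := hb
  refine ⟨s * s', r * s' + r' * s, mul_ne_zero hs0 hs0', fun q hq hm => ?_, ?_⟩
  · rcases (hT q hq).mem_or_mem hm with h1 | h1
    · exact hs q hq h1
    · exact hs' q hq h1
  · rw [map_mul, map_add, map_mul, map_mul, ← h, ← h']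
    ring

theorem inl_neg {T : Set (Ideal R)} {a : F} (ha : InL T a) : InL T (-a) := by
  obtain ⟨s, r, hs0, hs, h⟩ := ha
  exact ⟨s, -r, hs0, hs, by rw [map_neg, ← h]; ring⟩

theorem sing {P : Ideal R} (hP : P.IsPrime) : ∀ q ∈ ({P} : Set (Ideal R)), q.IsPrime := by
  intro q hq
  rw [Set.mem_singleton_iff] at hq
  rw [hq]
  exact hP

theorem una_mul {P : Ideal R} (hP : P.IsPrime) {a b : F} (ha : UnA P a) (hb : UnA P b) :
    UnA P (a * b) := by
  refine ⟨mul_ne_zero ha.1 hb.1, inl_mul (sing hP) ha.2.1 hb.2.1, ?_⟩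
  rw [mul_inv]
  exact inl_mul (sing hP) ha.2.2 hb.2.2

theorem una_inv {P : Ideal R} {a : F} (ha : UnA P a) : UnA P a⁻¹ :=
  ⟨inv_ne_zero ha.1, ha.2.2, by rw [inv_inv]; exact ha.2.1⟩

theorem una_one {P : Ideal R} (hP : P.IsPrime) : UnA P (1 : F) := by
  have h := inl_alg (F := F) (sing hP) 1
  rw [map_one] at h
  exact ⟨one_ne_zero, h, by rw [inv_one]; exact h⟩

theorem una_pow {P : Ideal R} (hP : P.IsPrime) {a : F} (ha : UnA P a) (n : ℕ) :
    UnA P (a ^ n) := by
  induction n with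
  | zero => rw [pow_zero]; exact una_one hP
  | succ n ih => rw [pow_succ]; exact una_mul hP ih ha

theorem una_zpow {P : Ideal R} (hP : P.IsPrime) {a : F} (ha : UnA P a) (n : ℤ) :
    UnA P (a ^ n) := by
  cases n with
  | ofNat n => rw [Int.ofNat_eq_natCast, zpow_natCast]; exact una_pow hP ha n
  | negSucc n => rw [zpow_negSucc]; exact una_inv (una_pow hP ha (n + 1))

theorem una_alg {P : Ideal R} (hP : P.IsPrime) {r : R} (hr : r ∉ P) :
    UnA P (algebraMap R F r) := by
  have h0 : r ≠ 0 := by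
    rintro rfl
    exact hr P.zero_mem
  refine ⟨alg_ne h0, inl_alg (sing hP) r, r, 1, h0, ?_, ?_⟩
  · intro q hq
    rw [Set.mem_singleton_iff] at hq
    rw [hq]
    exact hr
  · rw [mul_inv_cancel₀ (alg_ne h0), map_one]

/-- if `α` is integral at `Q`, then `α` or `1 + p ^ m α` is a unit at `Q` -/
theorem unit_or {Q : Ideal R} (hQ : Q.IsPrime) {α : F} (hα : InL {Q} α) (hα0 : α ≠ 0) (p : R)
    (m : ℕ) : UnA Q (1 + algebraMap R F p ^ m * α) ∨ UnA Q α := by
  obtain ⟨s, r, hs0, hs, h⟩ := hα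
  have hsQ := hs Q (Set.mem_singleton Q)
  have hsF : algebraMap R F s ≠ 0 := alg_ne hs0
  have hα' : α = algebraMap R F r * (algebraMap R F s)⁻¹ := by
    rw [← h]
    field_simp
  by_cases hr : r ∈ Q
  · left
    have h1 : s + p ^ m * r ∉ Q := by
      intro h2
      apply hsQ
      have h3 := Q.sub_mem h2 (Q.mul_mem_left (p ^ m) hr)
      rwa [add_sub_cancel_right] at h3
    have e : 1 + algebraMap R F p ^ m * α =
        algebraMap R F (s + p ^ m * r) * (algebraMap R F s)⁻¹ := by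
      rw [hα', map_add, map_mul, map_pow]
      field_simp
    rw [e]
    exact una_mul hQ (una_alg hQ h1) (una_inv (una_alg hQ hsQ))
  · right
    rw [hα']
    exact una_mul hQ (una_alg hQ hr) (una_inv (una_alg hQ hsQ))

/-- small elements -/
def Sm (S : Sit R) (u : F) : Prop := InL S.Sig ((u - 1) / algebraMap R F S.p ^ (S.n + 1))

theorem sig_pr (S : Sit R) : ∀ e ∈ S.Sig, e.IsPrime := fun _ he => he.1

theorem sm_inl (S : Sit R) {u : F} (hu : Sm S u) : InL S.Sig u := by
  have hp : algebraMap R F S.p ^ (S.n + 1) ≠ 0 := pow_ne_zero _ (alg_ne S.p0)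
  have h1 : u = 1 + algebraMap R F S.p ^ (S.n + 1) *
      ((u - 1) / algebraMap R F S.p ^ (S.n + 1)) := by
    field_simp
    ring
  rw [h1]
  refine inl_add (sig_pr S) ?_ (inl_mul (sig_pr S) ?_ hu)
  · have := inl_alg (F := F) (sig_pr S) 1
    rwa [map_one] at this
  · rw [← map_pow]
    exact inl_alg (sig_pr S) _

theorem sm_mul (S : Sit R) {u v : F} (hu : Sm S u) (hv : Sm S v) : Sm S (u * v) := by
  have h1 : (u * v - 1) / algebraMap R F S.p ^ (S.n + 1) =
      (u - 1) / algebraMap R F S.p ^ (S.n + 1) * v +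
        (v - 1) / algebraMap R F S.p ^ (S.n + 1) := by
    rw [div_mul_eq_mul_div, ← add_div]
    ring
  unfold Sm
  rw [h1]
  exact inl_add (sig_pr S) (inl_mul (sig_pr S) hu (sm_inl S hv)) hv

theorem sm_inv (S : Sit R) {u : F} (hu0 : u ≠ 0) (hu : Sm S u) : Sm S u⁻¹ := by
  have hp : algebraMap R F S.p ^ (S.n + 1) ≠ 0 := pow_ne_zero _ (alg_ne S.p0)
  have hinv : InL S.Sig u⁻¹ := by
    obtain ⟨s, r, hs0, hs, h⟩ := hu
    have hsF : algebraMap R F s ≠ 0 := alg_ne hs0
    have h2 : algebraMap R F s * (u - 1) = algebraMap R F (S.p ^ (S.n + 1) * r) := by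
      rw [map_mul, ← h, map_pow]
      field_simp
    have h3 : algebraMap R F (s + S.p ^ (S.n + 1) * r) = algebraMap R F s * u := by
      rw [map_add, ← h2]
      ring
    refine ⟨s + S.p ^ (S.n + 1) * r, s, ?_, ?_, ?_⟩
    · intro h4
      rw [h4, map_zero] at h3
      exact mul_ne_zero hsF hu0 h3.symm
    · intro e he h4
      apply hs e he
      have h5 : S.p ^ (S.n + 1) * r ∈ e :=
        e.mul_mem_right _ (e.pow_mem_of_mem he.2.2 _ (Nat.succ_pos _))
      have h6 := e.sub_mem h4 h5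
      rwa [add_sub_cancel_right] at h6
    · rw [h3, mul_assoc, mul_inv_cancel₀ hu0, mul_one]
  have h1 : (u⁻¹ - 1) / algebraMap R F S.p ^ (S.n + 1) =
      -((u - 1) / algebraMap R F S.p ^ (S.n + 1) * u⁻¹) := by
    field_simp
    ring
  unfold Sm
  rw [h1]
  exact inl_neg (inl_mul (sig_pr S) hu hinv)

theorem sm_one (S : Sit R) : Sm S (1 : F) := by
  unfold Sm
  rw [sub_self, zero_div]
  have := inl_alg (F := F) (sig_pr S) 0
  rwa [map_zero] at this

theorem sm_pow (S : Sit R) {u : F} (hu : Sm S u) (n : ℕ) : Sm S (u ^ n) := by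
  induction n with
  | zero => rw [pow_zero]; exact sm_one S
  | succ n ih => rw [pow_succ]; exact sm_mul S ih hu

theorem sm_zpow (S : Sit R) {u : F} (hu0 : u ≠ 0) (hu : Sm S u) (n : ℤ) : Sm S (u ^ n) := by
  cases n with
  | ofNat n => rw [Int.ofNat_eq_natCast, zpow_natCast]; exact sm_pow S hu n
  | negSucc n => rw [zpow_negSucc]; exact sm_inv S (pow_ne_zero _ hu0) (sm_pow S hu (n + 1))

variable {M : Type u} [AddCommGroup M] (σ : Symb F M)

theorem symb_one_left {c : F} (hc : c ≠ 0) : σ.s 1 c = 0 := by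
  have h := σ.mul_left 1 1 c one_ne_zero one_ne_zero hc
  rw [mul_one] at h
  exact (left_eq_add.1 h)

theorem symb_one_right {c : F} (hc : c ≠ 0) : σ.s c 1 = 0 := by
  have h := σ.mul_right c 1 1 hc one_ne_zero one_ne_zero
  rw [mul_one] at h
  exact (left_eq_add.1 h)

theorem symb_pow_left {a c : F} (ha : a ≠ 0) (hc : c ≠ 0) (n : ℕ) :
    σ.s (a ^ n) c = n • σ.s a c := by
  induction n with
  | zero => rw [pow_zero, zero_smul, symb_one_left σ hc]
  | succ n ih => rw [pow_succ, σ.mul_left _ _ _ (pow_ne_zero _ ha) ha hc, ih, add_smul, one_smul]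

theorem symb_pow_right {a c : F} (ha : a ≠ 0) (hc : c ≠ 0) (n : ℕ) :
    σ.s c (a ^ n) = n • σ.s c a := by
  induction n with
  | zero => rw [pow_zero, zero_smul, symb_one_right σ hc]
  | succ n ih => rw [pow_succ, σ.mul_right _ _ _ hc (pow_ne_zero _ ha) ha, ih, add_smul, one_smul]

theorem symb_inv_left {a c : F} (ha : a ≠ 0) (hc : c ≠ 0) : σ.s a⁻¹ c = -σ.s a c := by
  have h := σ.mul_left a a⁻¹ c ha (inv_ne_zero ha) hc
  rw [mul_inv_cancel₀ ha, symb_one_left σ hc] at h
  exact (neg_eq_of_add_eq_zero_right h.symm).symm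

theorem symb_inv_right {a c : F} (ha : a ≠ 0) (hc : c ≠ 0) : σ.s c a⁻¹ = -σ.s c a := by
  have h := σ.mul_right c a a⁻¹ hc ha (inv_ne_zero ha)
  rw [mul_inv_cancel₀ ha, symb_one_right σ hc] at h
  exact (neg_eq_of_add_eq_zero_right h.symm).symm

theorem symb_zpow_left {a c : F} (ha : a ≠ 0) (hc : c ≠ 0) (n : ℤ) :
    σ.s (a ^ n) c = n • σ.s a c := by
  cases n with
  | ofNat n => rw [Int.ofNat_eq_natCast, zpow_natCast, natCast_zsmul, symb_pow_left σ ha hc]
  | negSucc n =>
    rw [zpow_negSucc, symb_inv_left σ (pow_ne_zero _ ha) hc, symb_pow_left σ ha hc,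
      negSucc_zsmul]

theorem symb_zpow_right {a c : F} (ha : a ≠ 0) (hc : c ≠ 0) (n : ℤ) :
    σ.s c (a ^ n) = n • σ.s c a := by
  cases n with
  | ofNat n => rw [Int.ofNat_eq_natCast, zpow_natCast, natCast_zsmul, symb_pow_right σ ha hc]
  | negSucc n =>
    rw [zpow_negSucc, symb_inv_right σ (pow_ne_zero _ ha) hc, symb_pow_right σ ha hc,
      negSucc_zsmul]

end api

theorem pf_DEC (hFIN : T_FIN.{u}) (hPOL : T_POL.{u}) : T_DEC.{u} := by
  intro R F M _ _ _ _ _ _ _ _ S σ L H
  have hfin := (hFIN R F).2.1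
  have hCf : ∀ u g : F, u ≠ 0 → {P | P ∈ S.Hor ∧ ¬ UnA P u ∧ ¬ UnA P g}.Finite := by
    intro u g hu
    refine (hfin u hu).subset ?_
    rintro P ⟨h1, h2, -⟩
    exact ⟨h1.1, h1.2.1, h2⟩
  have main : ∀ (N : ℕ) (u g : F), u ≠ 0 → g ≠ 0 → Sm S u →
      {P | P ∈ S.Hor ∧ ¬ UnA P u ∧ ¬ UnA P g}.ncard ≤ N → σ.s u g ∈ L := by
    intro N
    induction N with
    | zero =>
      intro u g hu hg hsu hN
      refine H u g hu hg hsu fun P hP => ?_
      by_contra hcon
      push Not at hcon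
      have h1 : {P | P ∈ S.Hor ∧ ¬ UnA P u ∧ ¬ UnA P g} = ∅ := by
        rw [← Set.ncard_eq_zero (hCf u g hu)]
        omega
      have h2 : P ∈ {P | P ∈ S.Hor ∧ ¬ UnA P u ∧ ¬ UnA P g} := ⟨hP, hcon.1, hcon.2⟩
      rw [h1] at h2
      exact h2
    | succ N ih =>
      intro u g hu hg hsu hN
      by_cases hC : ∀ P ∈ S.Hor, UnA P u ∨ UnA P g
      · exact H u g hu hg hsu hC
      push Not at hC
      obtain ⟨P, hP, hPu, hPg⟩ := hC
      obtain ⟨B, hB⟩ : ∃ B : Set (Ideal R), B = {Q | Q ∈ S.Hor ∧ Q ≠ P ∧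
        (¬ UnA Q u ∨ ¬ UnA Q g)} := ⟨_, rfl⟩
      have hBf : B.Finite := by
        refine ((hfin u hu).union (hfin g hg)).subset ?_
        rw [hB]
        rintro Q ⟨h1, -, h2 | h2⟩
        · exact Or.inl ⟨h1.1, h1.2.1, h2⟩
        · exact Or.inr ⟨h1.1, h1.2.1, h2⟩
      have hBH : B ⊆ S.Hor := by
        rw [hB]
        exact fun Q hQ => hQ.1
      have hPB : P ∉ B := by
        rw [hB]
        exact fun h => h.2.1 rfl
      obtain ⟨α, hα0, hv0, hαS, hαk, hvα, hαQ, hαB⟩ := hPOL R F S P hP B hBf hBH hPB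
      obtain ⟨v, hv⟩ : ∃ v, v = 1 + algebraMap R F S.p ^ (S.n + 1) * α := ⟨_, rfl⟩
      rw [← hv] at hv0 hvα
      have hαB' : ∀ Q ∈ B, UnA Q α ∧ UnA Q v := by
        intro Q hQ
        rw [hv]
        exact hαB Q hQ
      have hpF : algebraMap R F S.p ^ (S.n + 1) ≠ 0 := pow_ne_zero _ (alg_ne S.p0)
      have hsv : Sm S v := by
        unfold Sm
        have e : (v - 1) / algebraMap R F S.p ^ (S.n + 1) = α := by
          rw [hv]
          field_simp
          ring
        rw [e]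
        exact hαS
      have hPp := hP.1
      obtain ⟨j, hj⟩ := hαk u hu
      obtain ⟨k, hk⟩ := hαk g hg
      have hor : ∀ Q ∈ S.Hor, Q ≠ P → UnA Q v ∨ UnA Q α := by
        intro Q hQ hQP
        rw [hv]
        exact unit_or hQ.1 (hαQ Q hQ hQP) hα0 S.p (S.n + 1)
      have hu'P : UnA P (u * v ^ j) := by
        have e : u * v ^ j = (u * α ^ j) * (v / α) ^ j := by
          rw [div_zpow]
          field_simp
        rw [e]
        exact una_mul hPp hj (una_zpow hPp hvα j)
      have hu'0 : u * v ^ j ≠ 0 := mul_ne_zero hu (zpow_ne_zero _ hv0)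
      have hg'0 : g * α ^ k ≠ 0 := mul_ne_zero hg (zpow_ne_zero _ hα0)
      have hsu' : Sm S (u * v ^ j) := sm_mul S hsu (sm_zpow S hv0 hsv j)
      have hout : ∀ Q ∈ S.Hor, Q ≠ P → Q ∉ B → UnA Q u ∧ UnA Q g := by
        intro Q hQ hQP hQB
        by_contra hcon
        apply hQB
        rw [hB]
        refine ⟨hQ, hQP, ?_⟩
        by_contra h1
        push Not at h1
        exact hcon h1
      -- (a)
      have ha : σ.s (u * v ^ j) (g * α ^ k) ∈ L := by
        refine ih _ _ hu'0 hg'0 hsu' ?_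
        have hsub : {Q | Q ∈ S.Hor ∧ ¬ UnA Q (u * v ^ j) ∧ ¬ UnA Q (g * α ^ k)} ⊆
            {Q | Q ∈ S.Hor ∧ ¬ UnA Q u ∧ ¬ UnA Q g} \ {P} := by
          rintro Q ⟨hQ, h1, h2⟩
          have hQP : Q ≠ P := by
            rintro rfl
            exact h1 hu'P
          refine ⟨⟨hQ, ?_, ?_⟩, hQP⟩
          · intro h3
            by_cases hQB : Q ∈ B
            · exact h1 (una_mul hQ.1 h3 (una_zpow hQ.1 (hαB' Q hQB).2 j))
            · obtain ⟨h4, h5⟩ := hout Q hQ hQP hQB
              rcases hor Q hQ hQP with h6 | h6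
              · exact h1 (una_mul hQ.1 h3 (una_zpow hQ.1 h6 j))
              · exact h2 (una_mul hQ.1 h5 (una_zpow hQ.1 h6 k))
          · intro h3
            by_cases hQB : Q ∈ B
            · exact h2 (una_mul hQ.1 h3 (una_zpow hQ.1 (hαB' Q hQB).1 k))
            · obtain ⟨h4, h5⟩ := hout Q hQ hQP hQB
              rcases hor Q hQ hQP with h6 | h6
              · exact h1 (una_mul hQ.1 h4 (una_zpow hQ.1 h6 j))
              · exact h2 (una_mul hQ.1 h3 (una_zpow hQ.1 h6 k))
        have h1 := Set.ncard_le_ncard hsub ((hCf u g hu).subset Set.diff_subset)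
        have h2 := Set.ncard_diff_singleton_lt_of_mem (s := {Q | Q ∈ S.Hor ∧ ¬ UnA Q u ∧
          ¬ UnA Q g}) (a := P) ⟨hP, hPu, hPg⟩ (hCf u g hu)
        omega
      -- (b)
      have hb : σ.s (u * v ^ j) α ∈ L := by
        refine H _ _ hu'0 hα0 hsu' fun Q hQ => ?_
        by_cases hQP : Q = P
        · left
          rw [hQP]
          exact hu'P
        · by_cases hQB : Q ∈ B
          · right
            exact (hαB' Q hQB).1
          · rcases hor Q hQ hQP with h6 | h6
            · left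
              exact una_mul hQ.1 (hout Q hQ hQP hQB).1 (una_zpow hQ.1 h6 j)
            · right
              exact h6
      -- (c)
      have hc : σ.s v (g * α ^ k) ∈ L := by
        refine H _ _ hv0 hg'0 hsv fun Q hQ => ?_
        by_cases hQP : Q = P
        · right
          rw [hQP]
          exact hk
        · by_cases hQB : Q ∈ B
          · left
            exact (hαB' Q hQB).2
          · rcases hor Q hQ hQP with h6 | h6
            · left
              exact h6
            · right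
              exact una_mul hQ.1 (hout Q hQ hQP hQB).2 (una_zpow hQ.1 h6 k)
      -- (d)
      have hd : σ.s v α ∈ L := by
        have h1 : σ.s v (-(algebraMap R F S.p ^ (S.n + 1))) ∈ L := by
          refine H _ _ hv0 (neg_ne_zero.2 hpF) hsv fun Q hQ => ?_
          right
          have e : -(algebraMap R F S.p ^ (S.n + 1)) =
              algebraMap R F (-1) * algebraMap R F S.p ^ (S.n + 1) := by
            rw [map_neg, map_one]
            ring
          rw [e]
          refine una_mul hQ.1 (una_alg hQ.1 ?_) (una_pow hQ.1 (una_alg hQ.1 hQ.2.2) _)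
          intro h2
          apply hQ.1.ne_top
          rw [Ideal.eq_top_iff_one]
          have := Q.neg_mem h2
          rwa [neg_neg] at this
        have h2 : σ.s v (-(algebraMap R F S.p ^ (S.n + 1)) * α) = 0 := by
          refine σ.st _ _ hv0 (mul_ne_zero (neg_ne_zero.2 hpF) hα0) ?_
          rw [hv]
          ring
        rw [σ.mul_right _ _ _ hv0 (neg_ne_zero.2 hpF) hα0] at h2
        have h3 : σ.s v α = -σ.s v (-(algebraMap R F S.p ^ (S.n + 1))) :=
          eq_neg_of_add_eq_zero_right h2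
        rw [h3]
        exact L.neg_mem h1
      -- the combination
      have e1 : σ.s (u * v ^ j) (g * α ^ k) = σ.s u g + j • σ.s v g + k • σ.s (u * v ^ j) α := by
        rw [σ.mul_right _ _ _ hu'0 hg (zpow_ne_zero _ hα0), symb_zpow_right σ hα0 hu'0,
          σ.mul_left _ _ _ hu (zpow_ne_zero _ hv0) hg, symb_zpow_left σ hv0 hg]
      have e2 : σ.s v (g * α ^ k) = σ.s v g + k • σ.s v α := by
        rw [σ.mul_right _ _ _ hv0 hg (zpow_ne_zero _ hα0), symb_zpow_right σ hα0 hv0]
      have e3 : σ.s v g ∈ L := by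
        have h1 : σ.s v g = σ.s v (g * α ^ k) - k • σ.s v α := by rw [e2]; abel
        rw [h1]
        exact L.sub_mem hc (L.zsmul_mem hd k)
      have e4 : σ.s u g = σ.s (u * v ^ j) (g * α ^ k) - j • σ.s v g -
          k • σ.s (u * v ^ j) α := by rw [e1]; abel
      rw [e4]
      exact L.sub_mem (L.sub_mem ha (L.zsmul_mem e3 j)) (L.zsmul_mem hb k)
  intro u g hu hg hsu
  exact main _ u g hu hg hsu le_rfl

end Pool.Agent.H86.KST
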