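import Pool.Agent.H92.KST.Targets

/-!
# Board kst_modules: row HAR (Hartogs for noetherian normal domains)
-/

set_option autoImplicit false
set_option linter.dupNamespace false

universe u

namespace Pool.Agent.H86.KST

open Pool.Agent.H92.KST

theorem pf_HAR : T_HAR.{u} := by
  intro R F _ _ _ _ _ _ _ T hTf hTn hT f hf
  obtain ⟨N, hN⟩ : ∃ N : Submodule R F, N = LinearMap.range (Algebra.linearMap R F) := ⟨_, rfl⟩
  have hmem : ∀ (x : F) (s : R), s ∈ N.colon {x} ↔
      ∃ r, algebraMap R F s * x = algebraMap R F r := by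
    intro x s
    rw [Submodule.mem_colon_singleton, hN, LinearMap.mem_range]
    constructor
    · rintro ⟨r, hr⟩
      exact ⟨r, by rw [← Algebra.smul_def, ← hr]; rfl⟩
    · rintro ⟨r, hr⟩
      exact ⟨r, by rw [Algebra.smul_def, hr]; rfl⟩
  by_cases h : ∃ q ∈ T, N.colon {f} ≤ q
  · exfalso
    obtain ⟨q, hq, hDq⟩ := h
    have hqp : q.IsPrime := hT q hq
    obtain ⟨P, hP, hPq⟩ := Ideal.exists_minimalPrimes_le hDq
    have hPp : P.IsPrime := hP.1.1
    obtain ⟨g, hg⟩ := Submodule.exists_eq_colon_of_mem_minimalPrimes (N := N) (x := f) hP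
    have hPm : ∀ s, s ∈ P ↔ ∃ r, algebraMap R F s * g = algebraMap R F r := by
      intro s
      rw [hg]
      exact hmem g s
    have hP0 : P ≠ ⊥ := by
      obtain ⟨a, b, hb, hab⟩ := IsFractionRing.div_surjective (A := R) g
      have hb0 : b ≠ 0 := nonZeroDivisors.ne_zero hb
      have hb1 : algebraMap R F b ≠ 0 := by
        rw [Ne, FaithfulSMul.algebraMap_eq_zero_iff]
        exact hb0
      intro h0
      have h1 : b ∈ P := (hPm b).2 ⟨a, by rw [← hab]; field_simp⟩
      rw [h0, Ideal.mem_bot] at h1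
      exact hb0 h1
    obtain ⟨t, ht, w, hw, hwP⟩ : ∃ t ∈ P, ∃ w, algebraMap R F t * g = algebraMap R F w ∧
        w ∉ P := by
      by_contra hcon
      push Not at hcon
      have hint : IsIntegral R g := by
        refine isIntegral_of_smul_mem_submodule (M := F)
          (Submodule.map (Algebra.linearMap R F) P) ?_ ?_ g ?_
        · intro h0
          apply hP0
          rw [eq_bot_iff]
          intro x hx
          have h1 : algebraMap R F x ∈ Submodule.map (Algebra.linearMap R F) P := ⟨x, hx, rfl⟩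
          rw [h0, Submodule.mem_bot, FaithfulSMul.algebraMap_eq_zero_iff] at h1
          exact h1
        · exact (IsNoetherian.noetherian P).map _
        · rintro _ ⟨t, ht, rfl⟩
          obtain ⟨w, hw⟩ := (hPm t).1 ht
          refine ⟨w, hcon t ht w hw, ?_⟩
          show algebraMap R F w = g • algebraMap R F t
          rw [← hw, smul_eq_mul, mul_comm]
      obtain ⟨y, hy⟩ := IsIntegrallyClosed.isIntegral_iff.1 hint
      apply hPp.ne_top
      rw [Ideal.eq_top_iff_one]
      exact (hPm 1).2 ⟨y, by rw [map_one, one_mul, hy]⟩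
    have hmin : P ∈ (Ideal.span {t}).minimalPrimes := by
      refine ⟨⟨hPp, ?_⟩, ?_⟩
      · rw [Ideal.span_singleton_le_iff_mem]
        exact ht
      · rintro Q ⟨hQ, htQ⟩ hQP x hx
        rw [Ideal.span_singleton_le_iff_mem] at htQ
        obtain ⟨z, hz⟩ := (hPm x).1 hx
        have h1 : w * x = t * z := by
          apply FaithfulSMul.algebraMap_injective R F
          rw [map_mul, map_mul, ← hw, ← hz]
          ring
        have h2 : w * x ∈ Q := by
          rw [h1]
          exact Ideal.mul_mem_right _ _ htQ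
        rcases hQ.mem_or_mem h2 with h3 | h3
        · exact absurd (hQP h3) hwP
        · exact h3
    have hht : P.height = 1 := by
      refine le_antisymm (Ideal.height_le_one_of_isPrincipal_of_mem_minimalPrimes _ P hmin) ?_
      rw [Order.one_le_iff_ne_zero, Ne, Ideal.height_eq_zero_iff_eq_bot]
      exact hP0
    obtain ⟨s, r, hs0, hs, hsr⟩ := hf P hPp hht ⟨q, hq, hPq⟩
    have h1 : s ∈ N.colon {f} := (hmem f s).2 ⟨r, hsr⟩
    exact hs P (Set.mem_singleton P) (hP.1.2 h1)
  · have h1 : ¬ ((N.colon {f} : Ideal R) : Set R) ⊆ ⋃ q ∈ T, (q : Set R) := by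
      intro hsub
      exact h ((Ideal.subset_union_prime_finite hTf (f := id) ⊤ ⊤
        (fun i hi _ _ => hT i hi)).1 hsub)
    rw [Set.not_subset] at h1
    obtain ⟨s, hs, hsT⟩ := h1
    obtain ⟨r, hr⟩ := (hmem f s).1 hs
    have hsT' : ∀ q ∈ T, s ∉ q := by
      intro q hq hsq
      exact hsT (Set.mem_iUnion₂.2 ⟨q, hq, hsq⟩)
    refine ⟨s, r, ?_, hsT', hr⟩
    rintro rfl
    obtain ⟨q, hq⟩ := hTn
    exact hsT' q hq q.zero_mem

end Pool.Agent.H86.KST
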